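import Pool.Agent.Helper14.T3.StL

/-!
# Project T3, module NEG3: the odd part of a symbol of degree at most `2`
-/

set_option autoImplicit false

namespace Pool.Agent.Helper33.T3

open Pool.Agent.Helper14.T3 Pool.Agent.Helper14.W3 Pool.Agent.Helper78.W3
open Pool.Agent.Helper14.CV (Homog EqC act)

/-! ### The odd part is a symbol -/

private lemma ngSym {r s : ℕ} {G : ℤ → ℤ → ZMod 3} (h : Sym3 r s G) :
    Sym3 r s (fun p q => G p q - G (-p) q) := by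
  obtain ⟨h1, h2⟩ := h
  refine ⟨?_, ?_⟩
  · intro k p q hk hpq
    have hpq' : -p ≠ 0 ∨ q ≠ 0 := by
      rcases hpq with h | h
      · exact Or.inl (neg_ne_zero.2 h)
      · exact Or.inr h
    have e1 := h1 k p q hk hpq
    have e2 := h1 k (-p) q hk hpq'
    show G (k * p) (k * q) - G (-(k * p)) (k * q) = G p q - G (-p) q
    rw [e1, ← e2, mul_neg]
  · intro a b c d hd hb hc
    obtain ⟨u, hu⟩ := h2 a b c d hd hb hc
    obtain ⟨v, hv⟩ := h2 a (-b) (-c) d (by linear_combination hd) ((dvd_neg).2 hb) ((dvd_neg).2 hc)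
    refine ⟨u - v, fun p q hpq => ?_⟩
    have hpq' : -p ≠ 0 ∨ q ≠ 0 := by
      rcases hpq with h | h
      · exact Or.inl (neg_ne_zero.2 h)
      · exact Or.inr h
    have e1 := hu p q hpq
    have e2 := hv (-p) q hpq'
    simp only [act] at e1 e2
    show G (a * p + b * q) (c * p + d * q) - G (-(a * p + b * q)) (c * p + d * q) =
      G p q - G (-p) q + (u - v)
    have e3 : G (-(a * p + b * q)) (c * p + d * q) = G (-p) q + v := by
      rw [← e2]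
      congr 1 <;> ring
    rw [e1, e3]
    ring

/-- The plane functions of the odd part. -/
private lemma ngPf (hPlA : S3PlA) (hEdg : S3Edg) {r s : ℕ} {G : ℤ → ℤ → ZMod 3}
    (h : Sym3 (r + 1) (s + 1) G) (f f' : Fin 3) (hf : e3 f' = -e3 f)
    (x : ZMod (3 ^ r)) (y : ZMod (3 ^ s)) :
    pf (fun p q => G p q - G (-p) q) f x y = pf G f x y - pf G f' (-x) (-y) := by
  obtain ⟨q1, q2, q3⟩ := hPlA 1 r s x y
  have hne : (e3 f' ≠ 0 ∨ (1 : ℤ) ≠ 0) := Or.inr one_ne_zero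
  have hP : Pl3 1 1 (-(x.val : ℤ)) (-(rY3 1 x y)) (1 + 3 ^ (1 + 1) * (x.val : ℤ) * rY3 1 x y)
      (-x) (-y) := by
    refine ⟨by linear_combination q1, ?_, ?_⟩
    · rw [Int.cast_neg, q2]; ring
    · rw [Int.cast_neg, q3]; ring
  have key := hEdg (ZMod 3) inferInstance 1 r s G h 1 0 (e3 f') 1 (Or.inl one_ne_zero) hne
    (-x) (-y) _ _ _ _ hP
  have e0 : pf G f' (-x) (-y) = edge3 1 1 0 (e3 f') 1 G (-x) (-y) := rfl
  rw [e0, key]
  simp only [pf, edge3]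
  generalize hY : rY3 1 x y = Y
  generalize hX : ((x.val : ℕ) : ℤ) = X
  have hh := h.1 (-1) (-(1 + 3 ^ 1 * X * 0)) (3 * Y * 1 + (1 + 3 ^ (1 + 1) * X * Y) * 0) (by norm_num)
    (Or.inl (by norm_num))
  have e1 : G (1 * 1 + 3 ^ 1 * -X * 0) (3 * -Y * 1 + (1 + 3 ^ (1 + 1) * X * Y) * 0) =
      G (-(1 + 3 ^ 1 * X * 0)) (3 * Y * 1 + (1 + 3 ^ (1 + 1) * X * Y) * 0) := by
    rw [← hh]
    congr 1 <;> ring
  have e2 : G (1 * e3 f' + 3 ^ 1 * -X * 1) (3 * -Y * e3 f' + (1 + 3 ^ (1 + 1) * X * Y) * 1) =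
      G (-(e3 f + 3 ^ 1 * X * 1)) (3 * Y * e3 f + (1 + 3 ^ (1 + 1) * X * Y) * 1) := by
    rw [hf]
    congr 1 <;> ring
  rw [e1, e2]
  ring

/-! ### Residues -/

private lemma r3_hom {r : ℕ} (hr : 1 ≤ r) (x : ZMod (3 ^ r)) :
    r3 x = ZMod.castHom (dvd_pow_self 3 (by omega : r ≠ 0)) (ZMod 3) x := by
  unfold r3
  rw [ZMod.castHom_apply, ZMod.natCast_val]

private lemma r3_zero0 (y : ZMod (3 ^ 0)) : r3 y = 0 := by
  have h : y = 0 := Subsingleton.elim (α := ZMod 1) y 0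
  rw [h]
  simp [r3]

private lemma r3_neg {r : ℕ} (x : ZMod (3 ^ r)) : r3 (-x) = -r3 x := by
  rcases Nat.eq_zero_or_pos r with h | h
  · subst h
    rw [r3_zero0, r3_zero0, neg_zero]
  · rw [r3_hom h, r3_hom h, map_neg]

private lemma r3_div {r : ℕ} (hr : 1 ≤ r) (a b : ℤ) (ha : ((a : ℤ) : ZMod 3) = 1) :
    r3 (((b : ℤ) : ZMod (3 ^ r)) * ((a : ℤ) : ZMod (3 ^ r))⁻¹) = ((b : ℤ) : ZMod 3) := by
  have hcop : IsCoprime a (3 : ℤ) := by
    have h1 : (3 : ℤ) ∣ a - 1 := by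
      have h2 := (ZMod.intCast_zmod_eq_zero_iff_dvd (a - 1) 3).1 (by push_cast; rw [ha]; ring)
      exact_mod_cast h2
    obtain ⟨t, ht⟩ := h1
    exact ⟨1, -t, by linear_combination ht⟩
  have hcop' : IsCoprime a ((3 : ℤ) ^ r) := hcop.pow_right
  obtain ⟨u, v, huv⟩ := hcop'
  have hun : IsUnit ((a : ℤ) : ZMod (3 ^ r)) := by
    refine IsUnit.of_mul_eq_one ((u : ℤ) : ZMod (3 ^ r)) ?_
    have h0 : (((3 : ℤ) ^ r : ℤ) : ZMod (3 ^ r)) = 0 := by
      have := ZMod.natCast_self (3 ^ r)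
      exact_mod_cast this
    have := congrArg (fun t : ℤ => (t : ZMod (3 ^ r))) huv
    simp only [Int.cast_add, Int.cast_mul, Int.cast_one, h0, mul_zero, add_zero] at this
    rw [mul_comm]; exact this
  have hinv := ZMod.inv_mul_of_unit _ hun
  have hi := congrArg (ZMod.castHom (dvd_pow_self 3 (by omega : r ≠ 0)) (ZMod 3)) hinv
  rw [map_mul, map_intCast, ha, mul_one, map_one] at hi
  rw [r3_hom hr, map_mul, map_intCast, hi, mul_one]

/-! ### The Newton expansion in degree at most `2` -/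

private lemma ch2 (n : ℕ) : ((n.choose 2 : ℕ) : ZMod 3) = (n : ZMod 3) - (n : ZMod 3) ^ 2 := by
  have h1 : n.choose 2 * 2 = n * (n - 1) := by
    rw [Nat.choose_two_right]
    exact Nat.div_mul_cancel (Nat.even_mul_pred_self n).two_dvd
  have h2 : ((n.choose 2 : ℕ) : ZMod 3) * 2 = (n : ZMod 3) * ((n : ZMod 3) - 1) := by
    rcases Nat.eq_zero_or_pos n with h | h
    · subst h; simp
    · have := congrArg (fun t : ℕ => (t : ZMod 3)) h1
      simp only [Nat.cast_mul, Nat.cast_ofNat] at this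
      rw [this, Nat.cast_pred h]
  have h3 : (3 : ZMod 3) = 0 := by decide
  linear_combination -h2 + ((n.choose 2 : ℕ) : ZMod 3) * h3

/-- The coefficients. -/
private def cf {q q' : ℕ} (F : Fn3 q q') (i j : ℕ) : ZMod 3 :=
  ((dX ^ i * dY ^ j : Module.End (ZMod 3) (Fn3 q q')) F) 0 0

private lemma cf_zero {q q' : ℕ} {F : Fn3 q q'} (hF : F ∈ (Wd3 2 : Submodule (ZMod 3) (Fn3 q q')))
    {i j : ℕ} (h : 2 < i + j) : cf F i j = 0 := by
  have := hF i j (by exact_mod_cast h)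
  unfold cf
  rw [this]
  rfl

private lemma cf_s0 {q : ℕ} (F : Fn3 q (3 ^ 0)) (i j : ℕ) (hj : 1 ≤ j) : cf F i j = 0 := by
  have hdy : (dY : Module.End (ZMod 3) (Fn3 q (3 ^ 0))) = 0 := by
    refine LinearMap.ext fun F => ?_
    funext x y
    show F x (y + 1) - F x y = 0
    have : y + 1 = y := Subsingleton.elim (α := ZMod 1) _ _
    rw [this, sub_self]
  unfold cf
  rw [hdy, zero_pow (by omega), mul_zero]
  rfl

private lemma expand (hBb : S3Bb) {r s : ℕ} (hr : 1 ≤ r) (F : Fn3 (3 ^ r) (3 ^ s))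
    (hF : F ∈ (Wd3 2 : Submodule (ZMod 3) (Fn3 (3 ^ r) (3 ^ s)))) (x : ZMod (3 ^ r)) (y : ZMod (3 ^ s)) :
    F x y = cf F 0 0 + cf F 1 0 * r3 x + cf F 2 0 * (r3 x - r3 x ^ 2) + cf F 0 1 * r3 y +
      cf F 0 2 * (r3 y - r3 y ^ 2) + cf F 1 1 * (r3 x * r3 y) := by
  have hN := (hBb r s).2.2.2.2.2 F
  have h3r : 3 ≤ 3 ^ r := by
    calc 3 = 3 ^ 1 := by norm_num
      _ ≤ 3 ^ r := Nat.pow_le_pow_right (by norm_num) hr
  have hval : ∀ i j : ℕ, (bb3 i j : Fn3 (3 ^ r) (3 ^ s)) x y =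
      ((x.val.choose i : ℕ) : ZMod 3) * ((y.val.choose j : ℕ) : ZMod 3) := by
    intro i j
    simp only [bb3, Nat.cast_mul]
  have h1 : F x y = ∑ i ∈ Finset.range (3 ^ r), ∑ j ∈ Finset.range (3 ^ s),
      cf F i j * (((x.val.choose i : ℕ) : ZMod 3) * ((y.val.choose j : ℕ) : ZMod 3)) := by
    have h2 := congrFun (congrFun hN x) y
    rw [h2]
    simp only [Finset.sum_apply, Pi.smul_apply, smul_eq_mul, hval]
    rfl
  have h4 : F x y = ∑ i ∈ Finset.range 3, ∑ j ∈ Finset.range (3 ^ s),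
      cf F i j * (((x.val.choose i : ℕ) : ZMod 3) * ((y.val.choose j : ℕ) : ZMod 3)) := by
    rw [h1]
    refine (Finset.sum_subset (Finset.range_subset_range.2 h3r) fun i _ hi => ?_).symm
    rw [Finset.mem_range, not_lt] at hi
    refine Finset.sum_eq_zero fun j _ => ?_
    rw [cf_zero hF (by omega), zero_mul]
  rcases Nat.eq_zero_or_pos s with hs | hs
  · subst hs
    rw [h4]
    have e1 : Finset.range (3 ^ 0) = {0} := rfl
    simp only [e1, Finset.sum_singleton, Finset.sum_range_succ, Finset.sum_range_zero, zero_add,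
      Nat.choose_zero_right, Nat.choose_one_right, Nat.cast_one, mul_one, ch2]
    rw [r3_zero0 y]
    simp only [r3]
    ring
  · have h3s : 3 ≤ 3 ^ s := by
      calc 3 = 3 ^ 1 := by norm_num
        _ ≤ 3 ^ s := Nat.pow_le_pow_right (by norm_num) hs
    have h5 : F x y = ∑ i ∈ Finset.range 3, ∑ j ∈ Finset.range 3,
        cf F i j * (((x.val.choose i : ℕ) : ZMod 3) * ((y.val.choose j : ℕ) : ZMod 3)) := by
      rw [h4]
      refine Finset.sum_congr rfl fun i _ => ?_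
      refine (Finset.sum_subset (Finset.range_subset_range.2 h3s) fun j _ hj => ?_).symm
      rw [Finset.mem_range, not_lt] at hj
      rw [cf_zero hF (by omega), zero_mul]
    rw [h5]
    simp only [Finset.sum_range_succ, Finset.sum_range_zero, zero_add,
      Nat.choose_zero_right, Nat.choose_one_right, Nat.cast_one, mul_one, one_mul, ch2]
    rw [cf_zero hF (i := 1) (j := 2) (by norm_num), cf_zero hF (i := 2) (j := 1) (by norm_num),
      cf_zero hF (i := 2) (j := 2) (by norm_num)]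
    simp only [r3]
    ring

/-! ### The theorem -/

theorem hNeg3 (hLow0 : S3Low0) (hBb : S3Bb) (hRel : S3Rel) (hPlA : S3PlA) (hEdg : S3Edg) : Neg3 := by
  intro r s G hr hG hW
  have _ := hLow0
  set H : ℤ → ℤ → ZMod 3 := fun p q => G p q - G (-p) q with hH
  have hHs : Sym3 (r + 1) (s + 1) H := ngSym hG
  have h3 : (3 : ZMod 3) = 0 := by decide
  set F0 : Fn3 (3 ^ r) (3 ^ s) := pf G 0 with hF0
  set F1 : Fn3 (3 ^ r) (3 ^ s) := pf G 1 with hF1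
  set F2 : Fn3 (3 ^ r) (3 ^ s) := pf G 2 with hF2
  have k0 : ∀ (x : ZMod (3 ^ r)) (y : ZMod (3 ^ s)), pf H 0 x y = F0 x y - F0 (-x) (-y) :=
    fun x y => ngPf hPlA hEdg hG 0 0 (by decide) x y
  have k1 : ∀ (x : ZMod (3 ^ r)) (y : ZMod (3 ^ s)), pf H 1 x y = F1 x y - F2 (-x) (-y) :=
    fun x y => ngPf hPlA hEdg hG 1 2 (by decide) x y
  have k2 : ∀ (x : ZMod (3 ^ r)) (y : ZMod (3 ^ s)), pf H 2 x y = F2 x y - F1 (-x) (-y) :=
    fun x y => ngPf hPlA hEdg hG 2 1 (by decide) x y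
  have w0 := expand hBb hr F0 (hW 0)
  have w1 := expand hBb hr F1 (hW 1)
  have w2 := expand hBb hr F2 (hW 2)
  -- the coefficients
  obtain ⟨al, hal⟩ : ∃ t, t = 2 * (cf F0 1 0 + cf F0 2 0) := ⟨_, rfl⟩
  obtain ⟨be, hbe⟩ : ∃ t, t = 2 * (cf F0 0 1 + cf F0 0 2) := ⟨_, rfl⟩
  obtain ⟨A, hA⟩ : ∃ t, t = cf F2 2 0 - cf F1 2 0 := ⟨_, rfl⟩
  obtain ⟨B, hB⟩ : ∃ t, t = cf F1 1 1 - cf F2 1 1 := ⟨_, rfl⟩
  obtain ⟨C, hC⟩ : ∃ t, t = cf F2 0 2 - cf F1 0 2 := ⟨_, rfl⟩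
  obtain ⟨u0, hu0⟩ : ∃ t, t = cf F1 0 0 - cf F2 0 0 := ⟨_, rfl⟩
  obtain ⟨u1, hu1⟩ : ∃ t, t = cf F1 1 0 + cf F1 2 0 + cf F2 1 0 + cf F2 2 0 := ⟨_, rfl⟩
  obtain ⟨u2, hu2⟩ : ∃ t, t = cf F1 0 1 + cf F1 0 2 + cf F2 0 1 + cf F2 0 2 := ⟨_, rfl⟩
  have q0 : ∀ (x : ZMod (3 ^ r)) (y : ZMod (3 ^ s)), pf H 0 x y = al * r3 x + be * r3 y := by
    intro x y
    rw [k0, w0, w0 (-x) (-y), r3_neg, r3_neg, hal, hbe]
    ring
  have q1 : ∀ (x : ZMod (3 ^ r)) (y : ZMod (3 ^ s)), pf H 1 x y =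
      u0 + u1 * r3 x + u2 * r3 y + A * r3 x ^ 2 + B * r3 x * r3 y + C * r3 y ^ 2 := by
    intro x y
    rw [k1, w1, w2 (-x) (-y), r3_neg, r3_neg, hu0, hu1, hu2, hA, hB, hC]
    ring
  have q2 : ∀ (x : ZMod (3 ^ r)) (y : ZMod (3 ^ s)), pf H 2 x y =
      -(u0 - u1 * r3 x - u2 * r3 y + A * r3 x ^ 2 + B * r3 x * r3 y + C * r3 y ^ 2) := by
    intro x y
    rw [k2, w2, w1 (-x) (-y), r3_neg, r3_neg, hu0, hu1, hu2, hA, hB, hC]
    ring
  -- the relation at the origin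
  have hrel := hRel (ZMod 3) inferInstance r s H hHs 0 0
  simp only [tr, mul_zero, add_zero, q0, q1, q2] at hrel
  have z0 : ∀ t : ℕ, r3 (0 : ZMod t) = 0 := by
    intro t; simp [r3]
  have x1 : r3 (((1 : ℤ) : ZMod (3 ^ r)) * ((-2 : ℤ) : ZMod (3 ^ r))⁻¹) = 1 := by
    rw [r3_div hr (-2) 1 (by decide)]; decide
  have x2 : r3 (((-1 : ℤ) : ZMod (3 ^ r)) * ((-2 : ℤ) : ZMod (3 ^ r))⁻¹) = -1 := by
    rw [r3_div hr (-2) (-1) (by decide)]; decide
  have x3 : r3 (((0 : ℤ) : ZMod (3 ^ r)) * ((1 : ℤ) : ZMod (3 ^ r))⁻¹) = 0 := by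
    rw [r3_div hr 1 0 (by decide)]; decide
  have hmain : (1 ≤ s → be = 2 * u1 + u2 + 2 * A + C) ∧ (s = 0 → u1 + A = 0) := by
    refine ⟨fun hs => ?_, fun hs => ?_⟩
    · have y1 : r3 (((1 : ℤ) : ZMod (3 ^ s)) * ((1 : ℤ) : ZMod (3 ^ s))⁻¹) = 1 := by
        rw [r3_div hs 1 1 (by decide)]; decide
      have y2 : r3 (((-1 : ℤ) : ZMod (3 ^ s)) * ((4 : ℤ) : ZMod (3 ^ s))⁻¹) = -1 := by
        rw [r3_div hs 4 (-1) (by decide)]; decide
      have y3 : r3 (((-1 : ℤ) : ZMod (3 ^ s)) * ((-5 : ℤ) : ZMod (3 ^ s))⁻¹) = -1 := by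
        rw [r3_div hs (-5) (-1) (by decide)]; decide
      rw [x1, x2, x3, y1, y2, y3, z0, z0] at hrel
      linear_combination -hrel
    · subst hs
      simp only [r3_zero0] at hrel
      rw [x1, x2, x3, z0] at hrel
      linear_combination -hrel + (u1 + A) * h3
  have s0 : s = 0 → u2 = 0 ∧ B = 0 ∧ C = 0 ∧ u1 + A = 0 := by
    intro hs
    refine ⟨?_, ?_, ?_, hmain.2 hs⟩
    · subst hs
      rw [hu2, cf_s0 _ _ _ (by norm_num), cf_s0 _ _ _ (by norm_num), cf_s0 _ _ _ (by norm_num),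
        cf_s0 _ _ _ (by norm_num)]
      ring
    · subst hs
      rw [hB, cf_s0 _ _ _ (by norm_num), cf_s0 _ _ _ (by norm_num)]
      ring
    · subst hs
      rw [hC, cf_s0 _ _ _ (by norm_num), cf_s0 _ _ _ (by norm_num)]
      ring
  refine ⟨al, A, B, C, u0, u1, u2, hHs, ⟨s0, fun x y => ⟨?_, q1 x y, q2 x y⟩⟩, ?_⟩
  · rw [q0]
    rcases Nat.eq_zero_or_pos s with hs | hs
    · subst hs
      rw [r3_zero0 y]; ring
    · rw [hmain.1 hs]
  · have e : ((dX ^ 2 - dY ^ 2 : Module.End (ZMod 3) (Fn3 (3 ^ r) (3 ^ s))) (F1 - F2)) 0 0 =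
        (cf F1 2 0 - cf F2 2 0) - (cf F1 0 2 - cf F2 0 2) := by
      rw [LinearMap.sub_apply, map_sub, map_sub]
      simp only [cf, pow_zero, mul_one, one_mul, Pi.sub_apply]
    rw [e, hA, hC]
    ring

end Pool.Agent.Helper33.T3
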