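import Pool.Agent.Helper28.T3.StC

/-!
# Project T3, module FINq: positive proportion, even case
-/

set_option autoImplicit false

namespace Pool.Agent.Helper33.T3

open Pool.Agent.Helper28.T3

private theorem EX_three (x : ℝ) (hx : 0 ≤ x) : EX (3 * x) ≤ 3 * EX x := by
  unfold EX
  rw [Real.mul_rpow (by norm_num) hx]
  have h1 : (3 : ℝ) ^ (15 / 16 : ℝ) ≤ 3 := by
    have h2 := Real.rpow_le_rpow_of_exponent_le (x := 3) (by norm_num)
      (show (15 / 16 : ℝ) ≤ 1 by norm_num)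
    rwa [Real.rpow_one] at h2
  exact mul_le_mul_of_nonneg_right h1 (Real.rpow_nonneg hx _)

private theorem EX_one (x : ℝ) (hx : 1 ≤ x) : 1 ≤ EX x := Real.one_le_rpow hx (by norm_num)

private theorem EX_small (K x : ℝ) (hK : 1 ≤ K) (hx : K ^ 16 ≤ x) : K * EX x ≤ x := by
  have hK0 : 0 < K := by linarith
  have hx1 : 0 < x := lt_of_lt_of_le (by positivity) hx
  have h1 : K ≤ x ^ (1 / 16 : ℝ) := by
    have h2 := Real.rpow_le_rpow (by positivity) hx (show (0 : ℝ) ≤ 1 / 16 by norm_num)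
    have h3 := Real.pow_rpow_inv_natCast (x := K) (n := 16) hK0.le (by norm_num)
    have e : (((16 : ℕ) : ℝ))⁻¹ = (1 / 16 : ℝ) := by norm_num
    rw [e] at h3
    rwa [h3] at h2
  have h4 : x = x ^ (1 / 16 : ℝ) * EX x := by
    unfold EX
    rw [← Real.rpow_add hx1]
    norm_num
  calc K * EX x ≤ x ^ (1 / 16 : ℝ) * EX x :=
        mul_le_mul_of_nonneg_right h1 (Real.rpow_nonneg hx1.le _)
    _ = x := h4.symm

theorem hFINq : StSQFq → StCNTq → StAFNq → StFINq := by
  intro hS hC hA r hr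
  obtain ⟨C₁, hC₁, hS⟩ := hS
  obtain ⟨C₂, hC₂, hC⟩ := hC
  obtain ⟨K, hK⟩ : ∃ K : ℝ, K = 1000 * (C₁ + 3 * C₂ + 1) := ⟨_, rfl⟩
  have hK1 : 1 ≤ K := by rw [hK]; linarith
  obtain ⟨N0, hN0⟩ := exists_nat_gt (K ^ 16)
  refine ⟨N0, fun N hN G hG => ?_⟩
  have hNR : K ^ 16 ≤ (N : ℝ) := hN0.le.trans (by exact_mod_cast hN)
  have hNr1 : (1 : ℝ) ≤ N := (one_le_pow₀ hK1).trans hNR
  have hN1 : 1 ≤ N := by exact_mod_cast hNr1
  classical
  -- the squarefree numbers
  obtain ⟨A, hAdef⟩ : ∃ A : Finset ℕ, A = (Finset.range (N + 1)).filter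
      fun D => Squarefree D ∧ D % 24 = r := ⟨_, rfl⟩
  have hAm : ∀ D, D ∈ A ↔ (D ≤ N ∧ Squarefree D ∧ D % 24 = r) := by
    intro D
    rw [hAdef, Finset.mem_filter, Finset.mem_range, Nat.lt_succ_iff]
  have h1 := hS r hr N hN1 A hAm
  -- the bad ones
  obtain ⟨B, hB⟩ : ∃ B : Finset ℕ, B = A.filter fun D => 1 < D ∧ (9 : ℤ) ∣ TD (3 * D) := ⟨_, rfl⟩
  have hcover : A ⊆ (G ∪ {1}) ∪ B := by
    intro D hD
    have hD' := (hAm D).1 hD
    have hD0 : D ≠ 0 := by
      rintro rfl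
      exact not_squarefree_zero hD'.2.1
    rw [Finset.mem_union, Finset.mem_union, Finset.mem_singleton, hG, hB, Finset.mem_filter]
    by_cases h1D : D = 1
    · exact Or.inl (Or.inr h1D)
    · have h2D : 1 < D := by omega
      by_cases h9 : (9 : ℤ) ∣ TD (3 * D)
      · exact Or.inr ⟨hD, h2D, h9⟩
      · exact Or.inl (Or.inl ⟨h2D, hD'.1, hD'.2.1, hD'.2.2, h9⟩)
  have hcard : (A.card : ℝ) ≤ G.card + 1 + B.card := by
    have h2 := (Finset.card_le_card hcover).trans (Finset.card_union_le _ _)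
    have h3 := Finset.card_union_le G {1}
    rw [Finset.card_singleton] at h3
    have h4 : A.card ≤ G.card + 1 + B.card := by omega
    exact_mod_cast h4
  -- the discriminants `3 D`
  have hBcard : (B.image fun D => 3 * D).card = B.card :=
    Finset.card_image_of_injective _ fun a b h => by
      have h' : 3 * a = 3 * b := h
      omega
  have h3r : 3 * r = 3 ∨ 3 * r = 51 := by
    rcases hr with rfl | rfl
    · exact Or.inl rfl
    · exact Or.inr rfl
  have h2 := hC (3 * r) h3r (3 * N) (by omega) (B.image fun D => 3 * D) (by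
    intro D' hD'
    rw [Finset.mem_image] at hD'
    obtain ⟨D, hD, rfl⟩ := hD'
    rw [hB, Finset.mem_filter] at hD
    obtain ⟨hDA, hD1, hD9⟩ := hD
    obtain ⟨hDN, hDsq, hDr⟩ := (hAm D).1 hDA
    have hcop : Nat.Coprime 3 D := by
      rw [Nat.Prime.coprime_iff_not_dvd Nat.prime_three]
      intro h3
      rcases hr with rfl | rfl <;> omega
    have hsq : Squarefree (3 * D) :=
      (Nat.squarefree_mul hcop).2 ⟨Nat.prime_three.squarefree, hDsq⟩
    refine ⟨by omega, by omega, ?_⟩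
    exact hA (3 * D) hsq (by rcases hr with rfl | rfl <;> omega) (by omega) (Dvd.intro _ rfl) hD9)
  rw [hBcard] at h2
  have e3 : (((3 * N : ℕ)) : ℝ) = 3 * (N : ℝ) := by push_cast; rfl
  rw [e3] at h2
  have h3 := mul_le_mul_of_nonneg_left (EX_three (N : ℝ) (by linarith)) hC₂
  have h4 := EX_small K N hK1 hNR
  have h5 := EX_one (N : ℝ) hNr1
  rw [hK] at h4
  nlinarith

end Pool.Agent.Helper33.T3
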